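import Pool.Agent.Helper88.EXT.Defs

/-!
# Lemma B: cone avoidance in Pi01 classes

A piece of the formalisation of MP_9b0a74_lc (helper88's proof, note 367).
-/

open Encodable

namespace EXT88

variable {U : ℕ → Prop}

/-! ### The list of all Boolean lists of a given length -/

/-- All Boolean lists of length `u`. -/
def allBool (u : ℕ) : List (List Bool) :=
  Nat.rec [[]] (fun _ ih => ih.flatMap fun g => [g ++ [false], g ++ [true]]) u

theorem allBool_zero : allBool 0 = [[]] := rfl

theorem allBool_succ (u : ℕ) :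
    allBool (u + 1) = (allBool u).flatMap fun g => [g ++ [false], g ++ [true]] := rfl

theorem mem_allBool {u : ℕ} {g : List Bool} : g ∈ allBool u ↔ g.length = u := by
  induction u generalizing g with
  | zero => simp [allBool_zero]
  | succ u ih =>
    rw [allBool_succ, List.mem_flatMap]
    constructor
    · rintro ⟨h, hh, hg⟩
      have := ih.1 hh
      simp only [List.mem_cons, List.not_mem_nil, or_false] at hg
      rcases hg with rfl | rfl <;> simp [this]
    · intro hg
      have hne : g ≠ [] := by
        rintro rfl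
        simp at hg
      refine ⟨g.dropLast, ih.2 (by rw [List.length_dropLast]; omega), ?_⟩
      have hd := List.dropLast_append_getLast hne
      simp only [List.mem_cons, List.not_mem_nil, or_false]
      cases hb : g.getLast hne with
      | false => left; rw [hb] at hd; exact hd.symm
      | true => right; rw [hb] at hd; exact hd.symm

theorem primrec_allBool : Primrec allBool := by
  unfold allBool
  refine Primrec.nat_rec₁ [[]] ?_
  refine (Primrec.list_flatMap (Primrec.snd) ?_)
  refine Primrec.list_cons.comp (Primrec.list_append.comp Primrec.snd (Primrec.const [false])) ?_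
  exact Primrec.list_cons.comp (Primrec.list_append.comp Primrec.snd (Primrec.const [true]))
    (Primrec.const [])

/-! ### Compactness of Cantor space -/

theorem pre_eq_ofFn (G : ℕ → Bool) (s : ℕ) : pre G s = List.ofFn (fun i : Fin s => G i) := by
  apply List.ext_getElem?
  intro i
  rw [pre_getElem?, List.getElem?_ofFn]
  split_ifs <;> simp_all

theorem isClopen_pre (E : List Bool → Prop) (s : ℕ) : IsClopen {G : ℕ → Bool | E (pre G s)} := by
  have hc : Continuous (fun G : ℕ → Bool => fun i : Fin s => G i) := by fun_prop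
  have : {G : ℕ → Bool | E (pre G s)} =
      (fun G : ℕ → Bool => fun i : Fin s => G i) ⁻¹' {x | E (List.ofFn x)} := by
    ext G
    simp only [Set.mem_ofPred_eq, Set.mem_preimage]
    rw [pre_eq_ofFn]
  rw [this]
  exact (isClopen_discrete _).preimage hc

theorem isClosed_paths (E : List Bool → Prop) : IsClosed {G : ℕ → Bool | ∀ s, ¬ E (pre G s)} := by
  rw [Set.ofPred_forall]
  exact isClosed_iInter fun s => (isClopen_pre (fun g => ¬ E g) s).1

/-- If `E` has no path then already all Boolean lists of some length meet `E`. -/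
theorem exists_bar (E : List Bool → Prop) (h : ¬ ∃ G : ℕ → Bool, ∀ s, ¬ E (pre G s)) :
    ∃ u, ∀ g ∈ allBool u, ∃ k < u + 1, E (g.take k) := by
  have hcov : (Set.univ : Set (ℕ → Bool)) ⊆ ⋃ s, {G : ℕ → Bool | E (pre G s)} := by
    intro G _
    by_contra hG
    apply h
    refine ⟨G, fun s hs => hG (Set.mem_iUnion.2 ⟨s, hs⟩)⟩
  obtain ⟨t, ht⟩ := isCompact_univ.elim_finite_subcover _
    (fun s => (isClopen_pre E s).2) hcov
  refine ⟨t.sup id, ?_⟩
  intro g hg
  have hlen := mem_allBool.1 hg
  have hG := ht (Set.mem_univ (fun i => g.getD i false))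
  simp only [Set.mem_iUnion, Set.mem_ofPred_eq, exists_prop] at hG
  obtain ⟨s, hs, hE⟩ := hG
  have hsu : s ≤ t.sup id := Finset.le_sup (f := id) hs
  refine ⟨s, by omega, ?_⟩
  have : pre (fun i => g.getD i false) s = g.take s := by
    apply List.ext_getElem?
    intro i
    rw [pre_getElem?, List.getElem?_take]
    split_ifs with hi
    · have hig : i < g.length := by omega
      simp [List.getD, List.getElem?_eq_getElem hig]
    · rfl
  rwa [this] at hE

/-- The nested intersection property. -/
theorem exists_common_path (E : ℕ → List Bool → Prop) (hmono : ∀ k g, E k g → E (k + 1) g)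
    (hne : ∀ k, ∃ G : ℕ → Bool, ∀ s, ¬ E k (pre G s)) :
    ∃ G : ℕ → Bool, ∀ k s, ¬ E k (pre G s) := by
  have := IsCompact.nonempty_iInter_of_sequence_nonempty_isCompact_isClosed
    (fun k => {G : ℕ → Bool | ∀ s, ¬ E k (pre G s)})
    (fun k G hG s hs => hG s (hmono k _ hs)) (fun k => hne k)
    ((isClosed_paths _).isCompact) (fun k => isClosed_paths _)
  obtain ⟨G, hG⟩ := this
  exact ⟨G, fun k => Set.mem_iInter.1 hG k⟩

/-! ### Lemma B -/

theorem lemmaB (T : Idl U) (E : List Bool → Prop) (hE : Sg T.car E)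
    (hpath : ∃ G : ℕ → Bool, ∀ s, ¬ E (pre G s)) :
    ∃ G : ℕ → Bool, (∀ s, ¬ E (pre G s)) ∧ U ∉ Adj T.car G := by
  classical
  obtain ⟨e, he⟩ := T.exists_enum
  -- the operators
  have hop : ∀ n, Sg T.car (fun x : List Bool × ℕ => e n (encode x)) := by
    intro n
    exact T.sig.comp (sg_nat.2 ((he (e n)).2 ⟨n, rfl⟩)) Primrec.encode
  have hop' : ∀ B : List Bool × ℕ → Prop, Sg T.car B → ∃ n, ∀ x, e n (encode x) ↔ B x := by
    intro B hB
    obtain ⟨n, hn⟩ := (he _).1 hB
    refine ⟨n, fun x => ?_⟩
    rw [hn]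
    simp
  let Q := {E : List Bool → Prop // Sg T.car E ∧ ∃ G : ℕ → Bool, ∀ s, ¬ E (pre G s)}
  obtain ⟨s, hs0, hs1, hs2⟩ := generic (Q := Q) (fun E E' => ∀ g, E.1 g → E'.1 g)
    (fun q g h => h) (fun p q r h1 h2 g h => h2 g (h1 g h))
    (fun q n r => (∃ m, U m ∧ ∀ G : ℕ → Bool, (∀ s, ¬ r.1 (pre G s)) →
        ∀ s, ¬ e n (encode (pre G s, m))) ∨
      (∃ m, ¬ U m ∧ ∀ G : ℕ → Bool, (∀ s, ¬ r.1 (pre G s)) → ∃ s, e n (encode (pre G s, m))))
    (by
      intro q p n _
      by_cases hA : ∃ m, U m ∧ ∃ G : ℕ → Bool, ∀ s,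
          ¬ (p.1 (pre G s) ∨ e n (encode (pre G s, m)))
      · obtain ⟨m, hUm, G, hG⟩ := hA
        refine ⟨⟨fun g => p.1 g ∨ e n (encode (g, m)), ?_, G, hG⟩, fun g h => Or.inl h, Or.inl ?_⟩
        · apply T.sig.or' p.2.1
          exact T.sig.comp (f := fun g : List Bool => (g, m)) (hop n)
            (Primrec.pair Primrec.id (Primrec.const m))
        · exact ⟨m, hUm, fun G' hG' s hs => hG' s (Or.inr hs)⟩
      · push Not at hA
        let F : ℕ → Prop := fun m => ∃ u, ∀ g ∈ allBool u, ∃ k < u + 1,
          (p.1 (g.take k) ∨ e n (encode (g.take k, m)))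
        have hF : F ∈ T.car := by
          rw [← sg_nat]
          apply T.sig.ex' (p := fun (m u : ℕ) => ∀ g ∈ allBool u, ∃ k < u + 1,
            (p.1 (g.take k) ∨ e n (encode (g.take k, m))))
          apply T.sig.ball_mem (p := fun (x : ℕ × ℕ) (g : List Bool) => ∃ k < x.2 + 1,
            (p.1 (g.take k) ∨ e n (encode (g.take k, x.1)))) (l := fun x : ℕ × ℕ => allBool x.2) _
            (primrec_allBool.comp Primrec.snd)
          apply T.sig.ex_lt (p := fun (x : (ℕ × ℕ) × List Bool) (k : ℕ) =>
            (p.1 (x.2.take k) ∨ e n (encode (x.2.take k, x.1.1))))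
            (k := fun x : (ℕ × ℕ) × List Bool => x.1.2 + 1) _
            (Primrec.succ.comp (Primrec.snd.comp Primrec.fst))
          apply T.sig.or'
          · exact T.sig.comp (f := fun x : ((ℕ × ℕ) × List Bool) × ℕ => x.1.2.take x.2) p.2.1
              (Primrec.list_take.comp Primrec.snd (Primrec.snd.comp Primrec.fst))
          · exact T.sig.comp (f := fun x : ((ℕ × ℕ) × List Bool) × ℕ =>
              (x.1.2.take x.2, x.1.1.1)) (hop n)
              (Primrec.pair (Primrec.list_take.comp Primrec.snd (Primrec.snd.comp Primrec.fst))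
                (Primrec.fst.comp (Primrec.fst.comp Primrec.fst)))
        have hUF : ∀ m, U m → F m := by
          intro m hm
          apply exists_bar (fun g => p.1 g ∨ e n (encode (g, m)))
          rintro ⟨G, hG⟩
          obtain ⟨s, hs⟩ := hA m hm G
          exact hG s hs
        have hex : ∃ m, F m ∧ ¬ U m := by
          by_contra hcon
          push Not at hcon
          have hmem : ∀ A : ℕ → Prop, A ∈ T.car → A ≠ U := by
            intro A hA hAU
            apply T.avoid
            subst hAU
            exact hA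
          exact hmem F hF (by
            funext m
            exact propext ⟨hcon m, hUF m⟩)
        obtain ⟨m, ⟨u, hu⟩, hm⟩ := hex
        refine ⟨p, fun g h => h, Or.inr ⟨m, hm, ?_⟩⟩
        intro G hG
        obtain ⟨k, hk, hk'⟩ := hu (pre G u) (mem_allBool.2 (pre_length G u))
        rw [pre_take G (by omega)] at hk'
        rcases hk' with hk' | hk'
        · exact absurd hk' (hG k)
        · exact ⟨k, hk'⟩)
    ⟨E, hE, hpath⟩
  obtain ⟨G, hG⟩ := exists_common_path (fun k => (s k).1) (fun k g => hs1 k g)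
    (fun k => (s k).2.2)
  refine ⟨G, ?_, ?_⟩
  · have := hG 0
    rw [hs0] at this
    exact this
  · rintro ⟨B, hB, hUB⟩
    obtain ⟨n, hn⟩ := hop' B hB
    obtain ⟨j, _, hj⟩ := hs2 0 n
    rcases hj with ⟨m, hm, hj⟩ | ⟨m, hm, hj⟩
    · obtain ⟨t, ht⟩ := (hUB m).1 hm
      exact hj G (hG j) t ((hn _).2 ht)
    · obtain ⟨t, ht⟩ := hj G (hG j)
      exact hm ((hUB m).2 ⟨t, (hn _).1 ht⟩)

end EXT88
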